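import Pool.Agent.N71.PS.DStubs2

/-!
# Project PS (helper71), task D_FP: primes whose discriminant has a property

Adapted from `short_primes` and `finalEP` of `Pool/Agent/N71/PS/Fin.lean`.
-/

set_option autoImplicit false

namespace Pool.Agent.N71.PS.FP

open Finset Filter NumberField Pool.Agent.H38R2.CG Pool.Agent.H38R2.CG2 Pool.Agent.H38R2.CG.AS1h Pool.Agent.H38R2.CG3
open Pool.Agent.H38R2.CG.FINh
open scoped Classical

variable [PSet]

open APh in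
/-- few exceptional prime discriminants with the property `G` in a short interval -/
theorem short_primesG (hAS : D_AS0) (hBH : P2_BH) (hRC : P2_RC) (G : ℕ → Prop) (a : ℝ) (ha : 2 < a)
    (hG : ∃ z1 : ℕ, ∀ z ≥ z1, ∀ p : ℕ, p.Prime → z < p → G (Dof p) →
      SANB a z (Dof p % Qz z)) (t0 : ℝ)
    (ht0 : 0 < t0) (ε : ℝ) (hε : 0 < ε) : ∃ η : ℝ, 0 < η ∧ η ≤ 1 ∧ ∃ X0 : ℕ, ∀ X ≥ X0,
    (((Finset.Ioc X ⌊(1 + η) * X⌋₊).filter (fun D => (∃ p : ℕ, p.Prime ∧ G (Dof p) ∧ D = Dof p) ∧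
      IsFund D ∧ Bd a t0 X D)).card : ℝ) ≤ ε * η * X / Real.log X := by
  have ha1 : 0 < a - 1 := by linarith
  have hcc0 : 0 < cc a := by
    unfold cc
    exact div_pos (by linarith) (by linarith)
  have hcc1 : cc a ≤ 1 / 2 := by
    unfold cc
    rw [div_le_iff₀ (by linarith)]
    linarith
  obtain ⟨C0, hC0, hB⟩ := hBH (cc a) hcc0 (by linarith)
  have hC0' : (1 : ℝ) ≤ C0 := by exact_mod_cast hC0
  obtain ⟨z0, hz0⟩ := hAS a ha t0 ht0 C0 hC0 (ε / C0) (by positivity)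
  obtain ⟨z1, hz1⟩ := hG
  obtain ⟨z, hz⟩ : ∃ z : ℕ, z = max 2 (max z0 z1) := ⟨_, rfl⟩
  have hz2 : 2 ≤ z := by rw [hz]; exact le_max_left _ _
  have hzz0 : z0 ≤ z := by rw [hz]; exact (le_max_left _ _).trans (le_max_right _ _)
  have hzz1 : z1 ≤ z := by rw [hz]; exact (le_max_right _ _).trans (le_max_right _ _)
  obtain ⟨η1, hη1, H⟩ := hz0 z hzz0
  obtain ⟨XB, hXB⟩ := hB z hz2 a ha
  have hηpos : 0 < min η1 1 := lt_min hη1 one_pos
  refine ⟨min η1 1, hηpos, min_le_right _ _, ?_⟩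
  set η := min η1 1 with hη
  have H' : ∀ r : ℕ, ∃ X0 : ℕ, ∀ X ≥ X0, ∀ ρ : ℕ → ℝ, SWt z X (Pool.Agent.H38R2.CG2.PA a X) (cc a) C0 ρ →
      FundRes z r ∧ SANB a z r →
      ∑ D ∈ (FD z r X η).filter (fun D => Bd a t0 X D), wt ρ D ≤ ε / C0 * WW z X η ρ := by
    intro r
    by_cases hr : FundRes z r ∧ SANB a z r
    · obtain ⟨X0, hX0⟩ := H η hηpos (min_le_left _ _) r hr.1 hr.2
      exact ⟨X0, fun X hX ρ hρ _ => hX0 X hX ρ hρ⟩
    · exact ⟨0, fun X _ ρ _ hr' => absurd hr' hr⟩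
  choose X0 hX0 using H'
  refine ⟨max (max ((Finset.range (Qz z)).sup X0) XB) (max 17 (4 * z)), ?_⟩
  intro X hX
  have hX1 : (Finset.range (Qz z)).sup X0 ≤ X :=
    (le_max_left _ _).trans ((le_max_left _ _).trans hX)
  have hX2 : XB ≤ X := (le_max_right _ _).trans ((le_max_left _ _).trans hX)
  have hX3 : 17 ≤ X := (le_max_left _ _).trans ((le_max_right _ _).trans hX)
  have hX4 : 4 * z ≤ X := (le_max_right _ _).trans ((le_max_right _ _).trans hX)
  obtain ⟨ρ, hρ, hρ1, hGG⟩ := hXB X hX2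
  have hX17 : (17 : ℝ) ≤ X := by exact_mod_cast hX3
  have hlog : 0 < Real.log X := Real.log_pos (by linarith)
  have hGpos : 0 ≤ GG X ρ := le_trans (by positivity) hρ.low
  set S := (Finset.Ioc X ⌊(1 + η) * X⌋₊).filter (fun D =>
    (∃ p : ℕ, p.Prime ∧ G (Dof p) ∧ D = Dof p) ∧ IsFund D ∧ Bd a t0 X D) with hS
  have hDof : ∀ p : ℕ, Dof p = p ∨ Dof p = 4 * p := by
    intro p
    unfold Dof
    split_ifs
    · exact Or.inl rfl
    · exact Or.inr rfl
  have hcard : S.card = ∑ r ∈ Finset.range (Qz z), (S.filter (fun D => D % Qz z = r)).card := by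
    apply Finset.card_eq_sum_card_fiberwise
    intro D _
    simp only [Finset.coe_range, Set.mem_Iio]
    exact Nat.mod_lt _ (AS1h.Qz_pos z)
  have hQ : (0 : ℝ) < Qz z := by exact_mod_cast AS1h.Qz_pos z
  have hW : 0 ≤ ε / C0 * WW z X η ρ := by
    unfold WW
    positivity
  have hle : ∀ r ∈ Finset.range (Qz z),
      ((S.filter (fun D => D % Qz z = r)).card : ℝ) ≤
        if (∀ q ∈ (Finset.Icc 3 z).filter Nat.Prime, ¬ q ∣ r) then ε / C0 * WW z X η ρ else 0 := by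
    intro r hr
    by_cases hfr : (FundRes z r ∧ SANB a z r) ∧
        ∀ q ∈ (Finset.Icc 3 z).filter Nat.Prime, ¬ q ∣ r
    · rw [if_pos hfr.2]
      refine le_trans ?_ (hX0 r X (le_trans (Finset.le_sup hr) hX1) ρ hρ hfr.1)
      have hsub : (S.filter (fun D => D % Qz z = r)) ⊆
          ((FD z r X η).filter (fun D => Bd a t0 X D)) := by
        intro D hD
        simp only [hS, FD, DD, Finset.mem_filter] at hD ⊢
        exact ⟨⟨⟨hD.1.1, hD.2⟩, hD.1.2.2.1⟩, hD.1.2.2.2⟩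
      have e1 : ((S.filter (fun D => D % Qz z = r)).card : ℝ) =
          ∑ D ∈ S.filter (fun D => D % Qz z = r), wt ρ D := by
        rw [Finset.sum_congr rfl (g := fun _ => (1 : ℝ)), Finset.sum_const, nsmul_eq_mul, mul_one]
        intro D hD
        simp only [hS, Finset.mem_filter, Finset.mem_Ioc] at hD
        obtain ⟨p, hp, -, hDp⟩ := hD.1.2.1
        exact wt_one hX3 hcc1 hρ hρ1 hD.1.1.1 hp (by rw [hDp]; exact hDof p)
      rw [e1]
      refine Finset.sum_le_sum_of_subset_of_nonneg hsub ?_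
      intro D hD _
      simp only [FD, DD, Finset.mem_filter, Finset.mem_Ioc] at hD
      exact wt_nonneg (by omega) (by linarith) hρ D (by omega)
    · have hemp : (S.filter (fun D => D % Qz z = r)) = ∅ := by
        rw [Finset.filter_eq_empty_iff]
        intro D hD hDr
        apply hfr
        simp only [hS, Finset.mem_filter, Finset.mem_Ioc] at hD
        obtain ⟨p, hp, hGp, hDp⟩ := hD.2.1
        have hzp : z < p := by
          have h1 : D ≤ 4 * p := by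
            rcases hDof p with h | h
            · omega
            · omega
          omega
        have hs := hz1 z hzz1 p hp hzp hGp
        rw [← hDp] at hs
        rw [← hDr]
        exact ⟨⟨AS1h.fundRes z D hD.2.2.1, hs⟩,
          res_cop hD.1.1 hp (by rw [hDp]; exact hDof p) hX4⟩
      rw [hemp, Finset.card_empty, Nat.cast_zero]
      split_ifs
      · exact hW
      · exact le_rfl
  rw [hcard]
  push_cast
  refine le_trans (Finset.sum_le_sum hle) ?_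
  rw [← Finset.sum_filter, Finset.sum_const, nsmul_eq_mul]
  have hRC' : ∀ inst : DecidablePred fun r : ℕ =>
      ∀ q ∈ (Finset.Icc 3 z).filter Nat.Prime, ¬ q ∣ r,
      (((@Finset.filter ℕ (fun r : ℕ => ∀ q ∈ (Finset.Icc 3 z).filter Nat.Prime, ¬ q ∣ r) inst
        (Finset.range (Qz z))).card : ℕ) : ℝ) =
      Qz z * ∏ q ∈ (Finset.Icc 3 z).filter Nat.Prime, (1 - (1 : ℝ) / q) := by
    intro inst
    have h5 := hRC z
    convert h5
  refine (le_of_eq (congrArg (fun t : ℝ => t * (ε / C0 * WW z X η ρ)) (hRC' _))).trans ?_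
  show (Qz z : ℝ) * (∏ q ∈ (Finset.Icc 3 z).filter Nat.Prime, (1 - (1 : ℝ) / q)) *
    (ε / C0 * WW z X η ρ) ≤ ε * η * X / Real.log X
  unfold WW
  have e2 : (Qz z : ℝ) * (∏ q ∈ (Finset.Icc 3 z).filter Nat.Prime, (1 - (1 : ℝ) / q)) *
      (ε / C0 * (η * X / Qz z * GG X ρ)) = ε / C0 * (η * X) *
        (GG X ρ * ∏ q ∈ (Finset.Icc 3 z).filter Nat.Prime, (1 - (1 : ℝ) / q)) := by
    field_simp
  rw [e2]
  calc ε / C0 * (η * X) *
        (GG X ρ * ∏ q ∈ (Finset.Icc 3 z).filter Nat.Prime, (1 - (1 : ℝ) / q))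
      ≤ ε / C0 * (η * X) * (C0 / Real.log X) :=
        mul_le_mul_of_nonneg_left hGG (by positivity)
    _ = ε * η * X / Real.log X := by
        field_simp



/-- D_FP -/
theorem D_FP_true (hN0 : P_N0) (hN0d : P_N0d) (hN1 : P_N1) (hN3 : P_N3) (h4 : P_N4) (hKF : P_KF)
    (h5b : P_N5b) (hN6 : P_N6) (hNB : Pool.Agent.H38R2.CG.P_NB) (hBH : P2_BH) (hRC : P2_RC) (hAS : D_AS0) :
    D_FP := by
  intro G hG a ε ha hε
  suffices hs : ∀ δ : ℝ, 0 < δ → ∃ η : ℝ, 0 < η ∧ η ≤ 1 ∧ ∃ X0 : ℕ, ∀ X ≥ X0,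
      (((Finset.Ioc X ⌊(1 + η) * (X : ℝ)⌋₊).filter
        (fun D => ∃ p : ℕ, p.Prime ∧ (G (Dof p) ∧ ¬ GoodE PSet.P a ε p) ∧ D = Dof p)).card : ℝ) ≤
        δ * η * X / Real.log X by
    have key := fin_primes hNB (fun d => G (Dof d) ∧ ¬ GoodE PSet.P a ε d) hs
    convert key
  intro δ hδ
  have ht0 : 0 < min ε (1 / 4) := lt_min hε (by norm_num)
  obtain ⟨η, hη, hη1, X0, hX0⟩ := short_primesG hAS hBH hRC G a ha (hG a ha) _ ht0 δ hδ
  obtain ⟨X1, hX1⟩ := exc_bd hN0 hN0d hN1 hN3 h4 hKF h5b hN6 a ha ε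
  refine ⟨η, hη, hη1, max X0 X1, fun X hX => ?_⟩
  refine le_trans ?_ (hX0 X (le_trans (le_max_left _ _) hX))
  have hsub : ((Finset.Ioc X ⌊(1 + η) * (X : ℝ)⌋₊).filter
        (fun D => ∃ p : ℕ, p.Prime ∧ (G (Dof p) ∧ ¬ GoodE PSet.P a ε p) ∧ D = Dof p)) ⊆
      (Finset.Ioc X ⌊(1 + η) * (X : ℝ)⌋₊).filter
        (fun D => (∃ p : ℕ, p.Prime ∧ G (Dof p) ∧ D = Dof p) ∧
          IsFund D ∧ Bd a (min ε (1 / 4)) X D) := by
    intro D hD
    rw [Finset.mem_filter] at hD ⊢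
    obtain ⟨hD1, p, hp, ⟨hGp, hg⟩, rfl⟩ := hD
    refine ⟨hD1, ⟨p, hp, hGp, rfl⟩, ?_⟩
    refine hX1 X (le_trans (le_max_right _ _) hX) p hp.one_lt hp.squarefree hg
      (Finset.mem_Ioc.1 hD1).1 ?_
    have h1 := (Finset.mem_Ioc.1 hD1).2
    have h2 : ((⌊(1 + η) * (X : ℝ)⌋₊ : ℕ) : ℝ) ≤ (1 + η) * (X : ℝ) :=
      Nat.floor_le (by positivity)
    have h3 : (Dof p : ℝ) ≤ (⌊(1 + η) * (X : ℝ)⌋₊ : ℝ) := by exact_mod_cast h1
    have h5 : (Dof p : ℝ) ≤ 2 * (X : ℝ) := by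
      have : (0 : ℝ) ≤ X := by positivity
      nlinarith
    exact_mod_cast h5
  exact_mod_cast Finset.card_le_card hsub

end Pool.Agent.N71.PS.FP
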