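import Pool.Agent.N71.PS.DStubs2

/-!
# Project PS (helper71), task D_FS: squarefree `d` whose discriminant has a property

Adapted from `short_all` and `finalE` of `Pool/Agent/N71/PS/Fin.lean`.
-/

set_option autoImplicit false

namespace Pool.Agent.N71.PS.FS

open Finset Filter NumberField Pool.Agent.H38R2.CG Pool.Agent.H38R2.CG2 Pool.Agent.H38R2.CG.AS1h Pool.Agent.H38R2.CG3
open Pool.Agent.H38R2.CG.FINh
open scoped Classical

variable [PSet]

/-- few exceptional discriminants with the property `G` in a short interval -/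
theorem short_allG (ht : P2_TRIV) (h : D_AS0) (G : ℕ → Prop) (a : ℝ) (ha : 2 < a)
    (hG : ∃ z1 : ℕ, ∀ z ≥ z1, ∀ D : ℕ, G D → IsFund D → SANB a z (D % Qz z))
    (t0 : ℝ) (ht0 : 0 < t0)
    (ε : ℝ) (hε : 0 < ε) : ∃ η : ℝ, 0 < η ∧ η ≤ 1 ∧ ∃ X0 : ℕ, ∀ X ≥ X0,
    (((Finset.Ioc X ⌊(1 + η) * X⌋₊).filter (fun D => G D ∧ IsFund D ∧ Bd a t0 X D)).card : ℝ) ≤
      ε * η * X := by
  obtain ⟨z0', hz0'⟩ := h a ha t0 ht0 1 le_rfl ε hε
  obtain ⟨z1, hz1⟩ := hG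
  obtain ⟨z0, hz00⟩ : ∃ z0 : ℕ, z0 = max z0' z1 := ⟨_, rfl⟩
  have hzz0 : z0' ≤ z0 := by rw [hz00]; exact le_max_left _ _
  have hzz1 : z1 ≤ z0 := by rw [hz00]; exact le_max_right _ _
  obtain ⟨η1, hη1, H⟩ := hz0' z0 hzz0
  have hηpos : 0 < min η1 1 := lt_min hη1 one_pos
  refine ⟨min η1 1, hηpos, min_le_right _ _, ?_⟩
  have H' : ∀ r : ℕ, ∃ X0 : ℕ, ∀ X ≥ X0, FundRes z0 r → SANB a z0 r → ∀ ρ : ℕ → ℝ,
      SWt z0 X (Pool.Agent.H38R2.CG2.PA a X) (cc a) 1 ρ →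
      ∑ D ∈ (FD z0 r X (min η1 1)).filter (fun D => Bd a t0 X D), wt ρ D ≤
        ε * WW z0 X (min η1 1) ρ := by
    intro r
    by_cases hr : FundRes z0 r ∧ SANB a z0 r
    · obtain ⟨X0, hX0⟩ := H (min η1 1) hηpos (min_le_left _ _) r hr.1 hr.2
      exact ⟨X0, fun X hX _ _ => hX0 X hX⟩
    · exact ⟨0, fun X _ hr' hr'' => absurd ⟨hr', hr''⟩ hr⟩
  choose X0 hX0 using H'
  refine ⟨max 3 ((Finset.range (Qz z0)).sup X0), ?_⟩
  intro X hX
  have hX3 : 3 ≤ X := le_trans (le_max_left _ _) hX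
  have hXs : (Finset.range (Qz z0)).sup X0 ≤ X := le_trans (le_max_right _ _) hX
  have hcc : 0 < cc a := by
    unfold cc
    apply div_pos <;> linarith
  obtain ⟨hSW, hGG, hwt⟩ := ht z0 X (Pool.Agent.H38R2.CG2.PA a X) (cc a) 1 hX3 hcc le_rfl
    (fun p hp => (Finset.mem_filter.1 hp).2)
  set η := min η1 1 with hη
  set ρ : ℕ → ℝ := fun d => if d = 1 then 1 else 0 with hρ
  have hWW : WW z0 X η ρ = η * X / Qz z0 := by
    unfold WW
    rw [hGG, mul_one]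
  set S := (Finset.Ioc X ⌊(1 + η) * X⌋₊).filter (fun D => G D ∧ IsFund D ∧ Bd a t0 X D) with hS
  have hcard : S.card = ∑ r ∈ Finset.range (Qz z0), (S.filter (fun D => D % Qz z0 = r)).card := by
    apply Finset.card_eq_sum_card_fiberwise
    intro D _
    simp only [Finset.coe_range, Set.mem_Iio]
    exact Nat.mod_lt _ (Qz_pos z0)
  have hQ : (0 : ℝ) < Qz z0 := by exact_mod_cast Qz_pos z0
  have hnn : 0 ≤ ε * (η * X / Qz z0) := by positivity
  have hle : ∀ r ∈ Finset.range (Qz z0),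
      ((S.filter (fun D => D % Qz z0 = r)).card : ℝ) ≤ ε * (η * X / Qz z0) := by
    intro r hr
    by_cases hfr : FundRes z0 r ∧ SANB a z0 r
    · have h1 := hX0 r X (le_trans (Finset.le_sup hr) hXs) hfr.1 hfr.2 ρ hSW
      rw [hWW] at h1
      refine le_trans ?_ h1
      have hcardsum : ∑ D ∈ (FD z0 r X η).filter (fun D => Bd a t0 X D), wt ρ D =
          (((FD z0 r X η).filter (fun D => Bd a t0 X D)).card : ℝ) := by
        rw [Finset.card_eq_sum_ones]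
        push_cast
        apply Finset.sum_congr rfl
        intro D hD
        apply hwt
        have h2 := (Finset.mem_filter.1 (Finset.mem_filter.1 hD).1).2
        exact h2.1.le
      rw [hcardsum]
      have : (S.filter (fun D => D % Qz z0 = r)) ⊆
          ((FD z0 r X η).filter (fun D => Bd a t0 X D)) := by
        intro D hD
        simp only [hS, FD, DD, Finset.mem_filter] at hD ⊢
        exact ⟨⟨⟨hD.1.1, hD.2⟩, hD.1.2.2.1⟩, hD.1.2.2.2⟩
      exact_mod_cast Finset.card_le_card this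
    · have : (S.filter (fun D => D % Qz z0 = r)) = ∅ := by
        rw [Finset.filter_eq_empty_iff]
        intro D hD hDr
        apply hfr
        rw [← hDr]
        have hD' := (Finset.mem_filter.1 hD).2
        exact ⟨fundRes z0 D hD'.2.1, hz1 z0 hzz1 D hD'.1 hD'.2.1⟩
      rw [this]
      simpa using hnn
  rw [hcard]
  push_cast
  refine le_trans (Finset.sum_le_sum hle) ?_
  rw [Finset.sum_const, Finset.card_range, nsmul_eq_mul]
  have : (Qz z0 : ℝ) * (ε * (η * X / Qz z0)) = ε * η * X := by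
    field_simp
  rw [this]

/-- D_FS -/
theorem D_FS_true (hN0 : P_N0) (hN0d : P_N0d) (hN1 : P_N1) (hN3 : P_N3) (h4 : P_N4) (hKF : P_KF)
    (h5b : P_N5b) (hN6 : P_N6) (ht : P2_TRIV) (hAS : D_AS0) : D_FS := by
  intro G hG a ε ha hε
  suffices hs : ∀ δ : ℝ, 0 < δ → ∃ η : ℝ, 0 < η ∧ η ≤ 1 ∧ ∃ X0 : ℕ, ∀ X ≥ X0,
      (((Finset.Ioc X ⌊(1 + η) * (X : ℝ)⌋₊).filter
        (fun D => ∃ d : ℕ, 1 < d ∧ Squarefree d ∧ (G (Dof d) ∧ ¬ GoodE PSet.P a ε d) ∧
          D = Dof d)).card : ℝ) ≤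
        δ * η * X by
    have key := fin_all (fun d => G (Dof d) ∧ ¬ GoodE PSet.P a ε d) hs
    convert key
  intro δ hδ
  have ht0 : 0 < min ε (1 / 4) := lt_min hε (by norm_num)
  obtain ⟨η, hη, hη1, X0, hX0⟩ := short_allG ht hAS G a ha (hG a ha) _ ht0 δ hδ
  obtain ⟨X1, hX1⟩ := exc_bd hN0 hN0d hN1 hN3 h4 hKF h5b hN6 a ha ε
  refine ⟨η, hη, hη1, max X0 X1, fun X hX => ?_⟩
  refine le_trans ?_ (hX0 X (le_trans (le_max_left _ _) hX))
  have hsub : ((Finset.Ioc X ⌊(1 + η) * (X : ℝ)⌋₊).filter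
        (fun D => ∃ d : ℕ, 1 < d ∧ Squarefree d ∧ (G (Dof d) ∧ ¬ GoodE PSet.P a ε d) ∧
          D = Dof d)) ⊆
      (Finset.Ioc X ⌊(1 + η) * (X : ℝ)⌋₊).filter
        (fun D => G D ∧ IsFund D ∧ Bd a (min ε (1 / 4)) X D) := by
    intro D hD
    rw [Finset.mem_filter] at hD ⊢
    obtain ⟨hD1, d, hd1, hds, ⟨hGd, hg⟩, rfl⟩ := hD
    refine ⟨hD1, hGd, ?_⟩
    refine hX1 X (le_trans (le_max_right _ _) hX) d hd1 hds hg (Finset.mem_Ioc.1 hD1).1 ?_
    have h1 := (Finset.mem_Ioc.1 hD1).2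
    have h2 : ((⌊(1 + η) * (X : ℝ)⌋₊ : ℕ) : ℝ) ≤ (1 + η) * (X : ℝ) :=
      Nat.floor_le (by positivity)
    have h3 : (Dof d : ℝ) ≤ (⌊(1 + η) * (X : ℝ)⌋₊ : ℝ) := by exact_mod_cast h1
    have h5 : (Dof d : ℝ) ≤ 2 * (X : ℝ) := by
      have : (0 : ℝ) ≤ X := by positivity
      nlinarith
    exact_mod_cast h5
  exact_mod_cast Finset.card_le_card hsub

end Pool.Agent.N71.PS.FS
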